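import Mathlib
import Pool.Agent.Run7.h432.LV.Stm3

/-!
# Project LV (helper432), piece ALF: alternating sums of multilinear functions vanish

`t_ALF : S_VE → S_ALF`.
-/

set_option autoImplicit false

namespace Run7.h958.LV

open Run7.h432.LV

universe u

/-- the Capelli identities for all multilinear functions -/
theorem cap_V {U : Type u} [Ring U] (I : Ideal U) (n : ℕ) (hI : Cap I n)
    (G : (Fin n → U) → U) (hG : G ∈ V U (Fin n)) (y : Fin n → U) (hy : ∀ i, y i ∈ I) :
    ∑ ρ : Equiv.Perm (Fin n), (Equiv.Perm.sign ρ : ℤ) • G (y ∘ ρ) = 0 := by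
  induction hG using AddSubgroup.closure_induction with
  | mem G hG =>
      obtain ⟨w, hw, rfl⟩ := hG
      exact hI w hw y hy
  | zero => simp
  | add G H _ _ hG hH =>
      simp only [Pi.add_apply, smul_add, Finset.sum_add_distrib]
      rw [hG, hH, add_zero]
  | neg G _ hG =>
      simp only [Pi.neg_apply, smul_neg, Finset.sum_neg_distrib]
      rw [hG, neg_zero]

/-- **ALF** -/
theorem t_ALF (hVE : S_VE.{u}) : S_ALF.{u} := by
  intro U _ I n hI ι F hF j x hx
  have hG := hVE U ι (Fin n) F hF j j.injective x
  have key := cap_V I n hI _ hG (fun i => x (j i)) hx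
  rw [← key]
  refine Finset.sum_congr rfl fun ρ _ => ?_
  congr 2
  funext i
  by_cases hi : ∃ l, j l = i
  · obtain ⟨l, rfl⟩ := hi
    rw [j.injective.extend_apply]
    simp only [Function.comp_apply, Equiv.Perm.viaEmbedding_apply]
  · rw [Function.extend_apply' _ _ _ hi]
    simp only [Function.comp_apply]
    rw [Equiv.Perm.viaEmbedding_apply_of_notMem]
    exact hi

end Run7.h958.LV
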