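import Mathlib
import Pool.Agent.Run7.h432.LV.Stm3

/-!
# Project LV (helper432), piece EX: exchange of two blocks

`t_EX : S_ALF → S_COS → S_EX`.
-/

set_option autoImplicit false

namespace Run7.h958.LV

open Run7.h432.LV Finset
open Equiv (Perm)

universe u

variable {U : Type u} [Ring U] {m : ℕ}

/-- the product word -/
def WW (w w' : List (U ⊕ Fin m)) (c : U) : List (U ⊕ (Fin m ⊕ Fin m)) :=
  w.map (Sum.map id Sum.inl) ++ [Sum.inl c] ++ w'.map (Sum.map id Sum.inr)

theorem ev_WW (w w' : List (U ⊕ Fin m)) (c : U) (z : Fin m ⊕ Fin m → U) :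
    ev (WW w w' c) z = ev w (fun i => z (Sum.inl i)) * c * ev w' (fun i => z (Sum.inr i)) := by
  have h : ∀ (g : Fin m → Fin m ⊕ Fin m) (l : List (U ⊕ Fin m)),
      (l.map (Sum.map id g)).map (Sum.elim id z) = l.map (Sum.elim id (fun i => z (g i))) := by
    intro g l
    rw [List.map_map]
    apply List.map_congr_left
    rintro (s | s) _ <;> rfl
  simp only [ev, WW, List.map_append, h, List.prod_append, List.map_cons, List.map_nil,
    List.prod_cons, List.prod_nil, Sum.elim_inl, id, mul_one]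

theorem once_WW {w w' : List (U ⊕ Fin m)} (hw : Once w) (hw' : Once w') (c : U) :
    Once (WW w w' c) := by
  have h1 : ∀ (g : Fin m → Fin m ⊕ Fin m) (l : List (U ⊕ Fin m)),
      (l.map (Sum.map id g)).filterMap Sum.getRight? = (l.filterMap Sum.getRight?).map g := by
    intro g l
    rw [List.filterMap_map, List.map_filterMap]
    congr 1
    funext s
    cases s <;> rfl
  refine ⟨?_, ?_⟩
  · rw [WW, List.filterMap_append, List.filterMap_append, h1, h1]
    have e : List.filterMap Sum.getRight? [(Sum.inl c : U ⊕ (Fin m ⊕ Fin m))] = [] := rfl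
    rw [e, List.append_nil]
    refine List.Nodup.append (hw.1.map Sum.inl_injective) (hw'.1.map Sum.inr_injective) ?_
    intro a ha hb
    obtain ⟨x, _, rfl⟩ := List.mem_map.1 ha
    obtain ⟨y, _, hy⟩ := List.mem_map.1 hb
    exact Sum.inr_ne_inl hy
  · rintro (i | i)
    · exact List.mem_append_left _ (List.mem_append_left _ (List.mem_map.2 ⟨_, hw.2 i, rfl⟩))
    · exact List.mem_append_right _ (List.mem_map.2 ⟨_, hw'.2 i, rfl⟩)

/-- the indicator of `σ (inl i) ∈ range inr` -/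
def rr (σ : Perm (Fin m ⊕ Fin m)) (i : Fin m) : ℤ := if (σ (Sum.inl i)).isRight then 1 else 0

theorem sign_via {n : ℕ} {β : Type} [DecidableEq β] [Fintype β] (ρ : Perm (Fin n)) (j : Fin n ↪ β) :
    Perm.sign (Equiv.Perm.viaEmbedding ρ j) = Perm.sign ρ := by
  classical
  rw [Equiv.Perm.viaEmbedding]
  convert Equiv.Perm.sign_extendDomain ρ (Equiv.ofInjective j.1 j.2)

theorem zero_T (hALF : S_ALF.{u}) (hCOS : S_COS.{u}) (I : Ideal U) (hI : Cap I (m + 1))
    {w w' : List (U ⊕ Fin m)} (hw : Once w) (hw' : Once w') (c : U) (v : Fin m ⊕ Fin m → U)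
    (hv : ∀ n, v n ∈ I) (T : Finset (Fin m)) (hT : T ≠ univ) :
    ∑ σ : Perm (Fin m ⊕ Fin m), (∏ i ∈ T, (- rr σ i)) •
      ((Perm.sign σ : ℤ) • ev (WW w w' c) (v ∘ σ)) = 0 := by
  obtain ⟨i₀, hi₀⟩ : ∃ i₀, i₀ ∉ T := by
    by_contra h
    exact hT (Finset.eq_univ_iff_forall.2 fun i => by
      by_contra hi
      exact h ⟨i, hi⟩)
  have hinj : Function.Injective (Fin.cons (Sum.inl i₀) Sum.inr : Fin (m + 1) → Fin m ⊕ Fin m) := by
    rw [Fin.cons_injective_iff]
    exact ⟨by rintro ⟨y, hy⟩; exact Sum.inr_ne_inl hy, Sum.inr_injective⟩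
  let j : Fin (m + 1) ↪ Fin m ⊕ Fin m := ⟨_, hinj⟩
  apply hCOS U (Perm (Fin m ⊕ Fin m)) (Perm (Fin (m + 1))) (Equiv.Perm.viaEmbeddingHom j)
    (Equiv.Perm.viaEmbeddingHom_injective j)
  intro σ
  have hA := hALF U I (m + 1) hI (Fin m ⊕ Fin m) (ev (WW w w' c))
    (AddSubgroup.subset_closure ⟨_, once_WW hw hw' c, rfl⟩) j (v ∘ σ) (fun i => hv _)
  have key : ∀ ρ : Perm (Fin (m + 1)),
      (∏ i ∈ T, (- rr (σ * Equiv.Perm.viaEmbeddingHom j ρ) i)) •
        ((Perm.sign (σ * Equiv.Perm.viaEmbeddingHom j ρ) : ℤ) •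
          ev (WW w w' c) (v ∘ (σ * Equiv.Perm.viaEmbeddingHom j ρ : Perm (Fin m ⊕ Fin m)))) =
      (∏ i ∈ T, (- rr σ i)) • ((Perm.sign σ : ℤ) • ((Perm.sign ρ : ℤ) •
        ev (WW w w' c) ((v ∘ σ) ∘ Equiv.Perm.viaEmbedding ρ j))) := by
    intro ρ
    rw [Equiv.Perm.viaEmbeddingHom_apply]
    have e1 : ∀ i ∈ T, - rr (σ * Equiv.Perm.viaEmbedding ρ j) i = - rr σ i := by
      intro i hi
      have hne : (Sum.inl i : Fin m ⊕ Fin m) ∉ Set.range j := by
        rintro ⟨l, hl⟩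
        refine Fin.cases ?_ (fun l => ?_) l hl
        · intro h
          have h' : (Sum.inl i₀ : Fin m ⊕ Fin m) = Sum.inl i := h
          exact hi₀ (Sum.inl_injective h' ▸ hi)
        · intro h
          have h' : (Sum.inr l : Fin m ⊕ Fin m) = Sum.inl i := h
          exact Sum.inr_ne_inl h'
      rw [rr, rr, Equiv.Perm.mul_apply, Equiv.Perm.viaEmbedding_apply_of_notMem ρ j _ hne]
    rw [Finset.prod_congr rfl e1, Equiv.Perm.sign_mul, sign_via, Units.val_mul, mul_smul]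
    rfl
  rw [Finset.sum_congr rfl fun ρ _ => key ρ, ← Finset.smul_sum, ← Finset.smul_sum, hA, smul_zero,
    smul_zero]

/-- the sum over the permutations which preserve the blocks -/
theorem sum_block (h : Perm (Fin m ⊕ Fin m) → U) :
    ∑ σ, (∏ i, (1 - rr σ i)) • h σ =
      ∑ p : Perm (Fin m) × Perm (Fin m), h (Equiv.Perm.sumCongrHom (Fin m) (Fin m) p) := by
  symm
  apply Finset.sum_of_injOn (Equiv.Perm.sumCongrHom (Fin m) (Fin m))
  · exact (Equiv.Perm.sumCongrHom_injective).injOn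
  · intro p _
    exact mem_coe.2 (mem_univ _)
  · intro σ _ hσ
    have hnot : ¬ Set.MapsTo σ (Set.range (Sum.inl : Fin m → Fin m ⊕ Fin m)) (Set.range Sum.inl) := by
      intro hm
      obtain ⟨p, hp⟩ := Equiv.Perm.mem_sumCongrHom_range_of_perm_mapsTo_inl hm
      exact hσ ⟨p, mem_coe.2 (mem_univ _), hp⟩
    have hex : ∃ i, (σ (Sum.inl i)).isRight = true := by
      by_contra hcon
      apply hnot
      rintro _ ⟨i, rfl⟩
      cases hx : σ (Sum.inl i) with
      | inl a => exact ⟨a, rfl⟩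
      | inr a => exact absurd ⟨i, by rw [hx]; rfl⟩ hcon
    obtain ⟨i, hi⟩ := hex
    rw [Finset.prod_eq_zero (mem_univ i) (by rw [rr, if_pos hi, sub_self]), zero_smul]
  · intro p _
    have h1 : ∀ i, (1 : ℤ) - rr (Equiv.Perm.sumCongrHom (Fin m) (Fin m) p) i = 1 := by
      intro i
      rw [rr, if_neg, sub_zero]
      simp [Equiv.Perm.sumCongrHom]
    rw [Finset.prod_congr rfl fun i _ => h1 i, Finset.prod_const_one, one_smul]

/-- the sign of the exchange of the blocks -/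
theorem sign_comm : Perm.sign (Equiv.sumComm (Fin m) (Fin m) : Perm (Fin m ⊕ Fin m)) = (-1) ^ m := by
  have h : (Equiv.sumComm (Fin m) (Fin m) : Perm (Fin m ⊕ Fin m)) =
      ((Equiv.boolProdEquivSum (Fin m)).symm.trans
        (Equiv.prodCongrLeft (fun _ : Fin m => Equiv.swap false true))).trans
          (Equiv.boolProdEquivSum (Fin m)) := by
    ext x
    rcases x with i | i <;> simp [Equiv.boolProdEquivSum]
  rw [h, Equiv.Perm.sign_symm_trans_trans, Equiv.Perm.sign_prodCongrLeft]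
  simp

/-- the product of two alternating sums -/
theorem alt_mul (w w' : List (U ⊕ Fin m)) (c : U) (x y : Fin m → U) :
    alt w x * c * alt w' y = ∑ p : Perm (Fin m) × Perm (Fin m),
      (Perm.sign (Equiv.Perm.sumCongrHom (Fin m) (Fin m) p) : ℤ) •
        ev (WW w w' c) (Sum.elim x y ∘ (Equiv.Perm.sumCongrHom (Fin m) (Fin m) p)) := by
  rw [Fintype.sum_prod_type, alt, alt, Finset.sum_mul, Finset.sum_mul]
  refine Finset.sum_congr rfl fun σ₁ _ => ?_
  rw [Finset.mul_sum]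
  refine Finset.sum_congr rfl fun σ₂ _ => ?_
  have h : (Equiv.Perm.sumCongrHom (Fin m) (Fin m) (σ₁, σ₂)) = Equiv.Perm.sumCongr σ₁ σ₂ := rfl
  rw [h, Equiv.Perm.sign_sumCongr, ev_WW, Units.val_mul, mul_smul, smul_mul_assoc, smul_mul_assoc,
    mul_smul_comm]
  rfl

/-- **EX** -/
theorem t_EX (hALF : S_ALF.{u}) (hCOS : S_COS.{u}) : S_EX.{u} := by
  intro U _ I _ m hI w w' hw hw' c x y hx hy
  have hv : ∀ n, Sum.elim x y n ∈ I := by
    rintro (i | i)
    · exact hx i
    · exact hy i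
  set f : Perm (Fin m ⊕ Fin m) → U := fun σ =>
    (Perm.sign σ : ℤ) • ev (WW w w' c) (Sum.elim x y ∘ σ) with hf
  -- inclusion-exclusion
  have h1 : ∑ σ, (∏ i, (1 - rr σ i)) • f σ = ∑ σ, (∏ i, (- rr σ i)) • f σ := by
    have e : ∀ σ : Perm (Fin m ⊕ Fin m), (∏ i, (1 - rr σ i)) =
        ∑ T ∈ (univ : Finset (Fin m)).powerset, ∏ i ∈ T, (- rr σ i) := by
      intro σ
      have := Finset.prod_add (fun i => - rr σ i) (fun _ => (1 : ℤ)) univ
      simp only [Finset.prod_const_one, mul_one] at this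
      rw [← this]
      exact Finset.prod_congr rfl fun i _ => by ring
    simp_rw [e, Finset.sum_smul]
    rw [Finset.sum_comm, Finset.sum_eq_single univ]
    · intro T _ hT
      exact zero_T hALF hCOS I hI hw hw' c (Sum.elim x y) hv T hT
    · intro h
      exact absurd (Finset.mem_powerset.2 (Finset.subset_univ _)) h
  -- the last term
  set τ : Perm (Fin m ⊕ Fin m) := Equiv.sumComm (Fin m) (Fin m) with hτ
  have h2 : ∑ σ, (∏ i, (- rr σ i)) • f σ =
      (-1 : ℤ) ^ m • ∑ σ, (∏ i, (1 - rr σ i)) • f (τ * σ) := by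
    rw [← Equiv.sum_comp (Equiv.mulLeft τ), Finset.smul_sum]
    refine Finset.sum_congr rfl fun σ _ => ?_
    have e : ∀ i, rr (τ * σ) i = 1 - rr σ i := by
      intro i
      rw [rr, rr, Equiv.Perm.mul_apply]
      cases hx : σ (Sum.inl i) with
      | inl a => simp [hτ]
      | inr a => simp [hτ]
    have e2 : (∏ i, (- rr (τ * σ) i)) = (-1 : ℤ) ^ m * ∏ i, (1 - rr σ i) := by
      simp_rw [e]
      rw [Finset.prod_neg, Finset.card_univ, Fintype.card_fin]
    show (∏ i, (- rr (τ * σ) i)) • f (τ * σ) = (-1 : ℤ) ^ m • ((∏ i, (1 - rr σ i)) • f (τ * σ))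
    rw [e2, mul_smul]
  rw [sum_block, h2, sum_block] at h1
  rw [alt_mul, alt_mul]
  rw [hf] at h1
  simp only at h1
  rw [h1, Finset.smul_sum]
  refine Finset.sum_congr rfl fun p _ => ?_
  rw [Equiv.Perm.sign_mul, hτ, sign_comm, Units.val_mul, mul_smul, smul_smul]
  have e1 : (-1 : ℤ) ^ m * ((((-1 : ℤˣ) ^ m : ℤˣ)) : ℤ) = 1 := by
    push_cast
    rw [← mul_pow]
    simp
  rw [e1, one_smul]
  congr 2
  funext n
  simp only [Function.comp_apply, Equiv.Perm.mul_apply]
  rcases (Equiv.Perm.sumCongrHom (Fin m) (Fin m) p) n with i | i <;> simp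

end Run7.h958.LV
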